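import Pool.Agent.Q199.RN.Forms

/-!
# A fixed point theorem for bounded sets of Hilbert-Schmidt forms
-/

set_option autoImplicit false
set_option linter.unusedSectionVars false

namespace Pool.Agent.Q199.RN

open scoped ENNReal RealInnerProductSpace
open Filter Topology

variable {E : Type} [NormedAddCommGroup E] [NormedSpace ℝ E] {ι : Type}

lemma act_cont (T : E ≃ₗᵢ[ℝ] E) : Continuous (act T) := by
  unfold act
  fun_prop

lemma compact_of {M : ℝ} {K : Set (E → E → ℝ)} (hcl : IsClosed K) (hF : ∀ B ∈ K, IsForm M B) :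
    IsCompact K := by
  have h1 : IsCompact (Set.pi Set.univ fun x : E => Set.pi Set.univ fun y : E =>
      Set.Icc (-(M * ‖x‖ * ‖y‖)) (M * ‖x‖ * ‖y‖)) :=
    isCompact_univ_pi fun x => isCompact_univ_pi fun y => isCompact_Icc
  refine h1.of_isClosed_subset hcl fun B hB x _ y _ => ?_
  exact abs_le.1 ((hF B hB).2.2.2 x y)

/-- the family of invariant compact convex sets -/
def Fam (K₀ : Set (E → E → ℝ)) : Set (Set (E → E → ℝ)) :=
  {K | K.Nonempty ∧ IsClosed K ∧ Convex ℝ K ∧ (∀ T : E ≃ₗᵢ[ℝ] E, ∀ B ∈ K, act T B ∈ K) ∧ K ⊆ K₀}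

lemma exists_min {K₀ : Set (E → E → ℝ)} (hc : IsCompact K₀) (h0 : K₀ ∈ Fam K₀) :
    ∃ K, Minimal (· ∈ Fam K₀) K := by
  refine zorn_superset _ fun c hc1 hc2 => ?_
  rcases c.eq_empty_or_nonempty with h | h
  · exact ⟨K₀, h0, fun s hs => by rw [h] at hs; exact absurd hs (Set.notMem_empty _)⟩
  · refine ⟨⋂₀ c, ⟨?_, ?_, ?_, ?_, ?_⟩, fun s hs => Set.sInter_subset_of_mem hs⟩
    · have : Nonempty c := h.to_subtype
      refine IsCompact.nonempty_sInter_of_directed_nonempty_isCompact_isClosed ?_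
        (fun U hU => (hc1 hU).1)
        (fun U hU => hc.of_isClosed_subset (hc1 hU).2.1 (hc1 hU).2.2.2.2)
        (fun U hU => (hc1 hU).2.1)
      intro A hA B hB
      rcases hc2.total hA hB with h3 | h3
      · exact ⟨A, hA, subset_rfl, h3⟩
      · exact ⟨B, hB, h3, subset_rfl⟩
    · exact isClosed_sInter fun U hU => (hc1 hU).2.1
    · exact convex_sInter fun U hU => (hc1 hU).2.2.1
    · intro T B hB U hU
      exact (hc1 hU).2.2.2.1 T B (hB U hU)
    · obtain ⟨U, hU⟩ := h
      exact (Set.sInter_subset_of_mem hU).trans (hc1 hU).2.2.2.2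

lemma act_act (S T : E ≃ₗᵢ[ℝ] E) (B : E → E → ℝ) : act T (act S B) = act (T.trans S) B := rfl

lemma act_refl (B : E → E → ℝ) : act (LinearIsometryEquiv.refl ℝ E) B = B := rfl

lemma act_symm (T : E ≃ₗᵢ[ℝ] E) (B : E → E → ℝ) : act T.symm (act T B) = B := by
  funext x y
  show B (T (T.symm x)) (T (T.symm y)) = B x y
  rw [T.apply_symm_apply, T.apply_symm_apply]

/-- **fixed points** -/
theorem fixed {e : ι → E} {κ M : ℝ} (hg : Good e κ) {B₀ : E → E → ℝ} {R : ℝ}
    {K₀ : Set (E → E → ℝ)} (hne : K₀.Nonempty) (hcl : IsClosed K₀) (hcv : Convex ℝ K₀)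
    (hinv : ∀ T : E ≃ₗᵢ[ℝ] E, ∀ B ∈ K₀, act T B ∈ K₀) (hF : ∀ B ∈ K₀, IsForm M B)
    (hq : ∀ B ∈ K₀, q e (B - B₀) ≤ ENNReal.ofReal R) :
    ∃ B ∈ K₀, ∀ T : E ≃ₗᵢ[ℝ] E, act T B = B := by
  obtain ⟨K, hK⟩ := exists_min (compact_of hcl hF) ⟨hne, hcl, hcv, hinv, subset_rfl⟩
  obtain ⟨⟨k1, k2, k3, k4, k5⟩, kmin⟩ := hK
  have hfin : ∀ B ∈ K, q e (B - B₀) ≠ ∞ := fun B hB =>
    ne_top_of_le_ne_top ENNReal.ofReal_ne_top (hq B (k5 hB))
  have hk1 := hg.one_le
  -- distances are finite
  have hdist : ∀ B ∈ K, ∀ C ∈ K, q e (B - C) ≤ 2 * q e (B - B₀) + 2 * q e (C - B₀) := by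
    intro B _ C _
    have h1 := q_par e (B - B₀) (C - B₀)
    rw [sub_sub_sub_cancel_right] at h1
    rw [← h1]
    exact le_add_self
  have hsub : ∀ u ∈ K, ∀ v ∈ K, u = v := by
    intro u hu v hv
    by_contra huv
    obtain ⟨δ, hδ⟩ : ∃ δ, δ = (q e (u - v)).toReal := ⟨_, rfl⟩
    have hdf : q e (u - v) ≠ ∞ := by
      refine ne_top_of_le_ne_top ?_ (hdist u hu v hv)
      have := hfin u hu
      have := hfin v hv
      finiteness
    have hδ0 : 0 < δ := by
      rw [hδ]
      refine ENNReal.toReal_pos (fun h => huv ?_) hdf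
      exact sub_eq_zero.1 (eq_of_q hg ((hF u (k5 hu)).sub (hF v (k5 hv))) h)
    -- the radius
    obtain ⟨r, hr⟩ : ∃ r : (E → E → ℝ) → ℝ, r = fun B => (q e (B - B₀)).toReal := ⟨_, rfl⟩
    have hbdd : BddAbove (r '' K) := by
      refine ⟨(ENNReal.ofReal R).toReal, ?_⟩
      rintro _ ⟨B, hB, rfl⟩
      rw [hr]
      exact ENNReal.toReal_mono ENNReal.ofReal_ne_top (hq B (k5 hB))
    obtain ⟨R', hR'⟩ : ∃ R', R' = sSup (r '' K) := ⟨_, rfl⟩
    have hle : ∀ B ∈ K, r B ≤ R' := fun B hB => by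
      rw [hR']; exact le_csSup hbdd ⟨B, hB, rfl⟩
    have hqr : ∀ B ∈ K, q e (B - B₀) = ENNReal.ofReal (r B) := fun B hB => by
      rw [hr]; exact (ENNReal.ofReal_toReal (hfin B hB)).symm
    have hr0 : ∀ B, 0 ≤ r B := fun B => by rw [hr]; exact ENNReal.toReal_nonneg
    have hqle : ∀ B ∈ K, q e (B - B₀) ≤ ENNReal.ofReal R' := fun B hB => by
      rw [hqr B hB]; exact ENNReal.ofReal_le_ofReal (hle B hB)
    have hR0 : 0 ≤ R' := (hr0 u).trans (hle u hu)
    have hδR : δ ≤ 4 * R' := by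
      have h1 : q e (u - v) ≤ ENNReal.ofReal (4 * R') := by
        refine (hdist u hu v hv).trans ?_
        calc 2 * q e (u - B₀) + 2 * q e (v - B₀)
            ≤ 2 * ENNReal.ofReal R' + 2 * ENNReal.ofReal R' := by
              gcongr
              · exact hqle u hu
              · exact hqle v hv
          _ = ENNReal.ofReal (4 * R') := by
              have e2 : (2 : ℝ≥0∞) = ENNReal.ofReal 2 := by simp
              rw [e2, ← ENNReal.ofReal_mul (by norm_num), ← ENNReal.ofReal_add (by positivity)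
                (by positivity)]
              congr 1
              ring
      rw [hδ]
      exact ENNReal.toReal_le_of_le_ofReal (by positivity) h1
    obtain ⟨η, hη⟩ : ∃ η, η = δ / (128 * κ ^ 2) := ⟨_, rfl⟩
    have hκ2 : 1 ≤ κ ^ 2 := one_le_pow₀ hk1
    have hη0 : 0 < η := by rw [hη]; positivity
    have hηδ : 128 * κ ^ 2 * η = δ := by rw [hη]; field_simp
    have hηR : η < R' := by nlinarith
    obtain ⟨_, ⟨x₀, hx₀, rfl⟩, hx₀'⟩ := exists_lt_of_lt_csSup (Set.Nonempty.image r k1)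
      (show R' - η < sSup (r '' K) by rw [← hR']; linarith)
    -- the slice
    obtain ⟨K₁, hK₁⟩ : ∃ K₁ : Set (E → E → ℝ), K₁ = {y | q e (y - ((2 : ℝ) • B₀ - x₀))
      ≤ ENNReal.ofReal (4 * (R' - η))} := ⟨_, rfl⟩
    have hc1 : IsClosed K₁ := by rw [hK₁]; exact q_closed _ _ _
    have hc2 : Convex ℝ K₁ := by rw [hK₁]; exact q_convex _ _ _
    have hx₁ : x₀ ∉ K₁ := by
      rw [hK₁]
      intro h
      have h1 : q e (x₀ - ((2 : ℝ) • B₀ - x₀)) ≤ ENNReal.ofReal (4 * (R' - η)) := h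
      have h2 : x₀ - ((2 : ℝ) • B₀ - x₀) = (2 : ℝ) • (x₀ - B₀) := by module
      rw [h2, q_smul, hqr x₀ hx₀, ← ENNReal.ofReal_mul (by positivity),
        ENNReal.ofReal_le_ofReal_iff (by linarith)] at h1
      linarith
    have hsl : ∀ y ∈ K, y ∉ K₁ → q e (y - x₀) ≤ ENNReal.ofReal (4 * η) := by
      intro y hy hy1
      have h1 : ¬ q e (y - ((2 : ℝ) • B₀ - x₀)) ≤ ENNReal.ofReal (4 * (R' - η)) := by
        rw [hK₁] at hy1; exact hy1
      have h2 := q_par e (y - B₀) (x₀ - B₀)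
      have e1 : (y - B₀) + (x₀ - B₀) = y - ((2 : ℝ) • B₀ - x₀) := by module
      rw [sub_sub_sub_cancel_right, e1] at h2
      by_contra h3
      push Not at h1 h3
      have h4 : ENNReal.ofReal (4 * (R' - η)) + ENNReal.ofReal (4 * η)
          < q e (y - ((2 : ℝ) • B₀ - x₀)) + q e (y - x₀) := ENNReal.add_lt_add h1 h3
      rw [h2, ← ENNReal.ofReal_add (by linarith) (by linarith)] at h4
      have h5 : 2 * q e (y - B₀) + 2 * q e (x₀ - B₀) ≤ ENNReal.ofReal (4 * (R' - η) + 4 * η) := by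
        calc 2 * q e (y - B₀) + 2 * q e (x₀ - B₀)
            ≤ 2 * ENNReal.ofReal R' + 2 * ENNReal.ofReal R' := by
              gcongr
              · exact hqle y hy
              · exact hqle x₀ hx₀
          _ = ENNReal.ofReal (4 * (R' - η) + 4 * η) := by
              have e2 : (2 : ℝ≥0∞) = ENNReal.ofReal 2 := by simp
              rw [e2, ← ENNReal.ofReal_mul (by norm_num), ← ENNReal.ofReal_add (by positivity)
                (by positivity)]
              congr 1
              ring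
      exact absurd h5 (not_le.2 h4)
    -- an image of the midpoint lies outside the slice complement
    have hw : ((1 / 2 : ℝ) • (u + v)) ∈ K := by
      have := k3 hu hv (by norm_num : (0 : ℝ) ≤ 1 / 2) (by norm_num : (0 : ℝ) ≤ 1 / 2)
        (by norm_num)
      rwa [← smul_add] at this
    obtain ⟨T, hT⟩ : ∃ T : E ≃ₗᵢ[ℝ] E, act T ((1 / 2 : ℝ) • (u + v)) ∉ K₁ := by
      by_contra hcon
      push Not at hcon
      have hmem : {y ∈ K | ∀ T : E ≃ₗᵢ[ℝ] E, act T y ∈ K₁} ∈ Fam K₀ := by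
        refine ⟨⟨_, hw, hcon⟩, ?_, ?_, ?_, ?_⟩
        · have : {y ∈ K | ∀ T : E ≃ₗᵢ[ℝ] E, act T y ∈ K₁} = K ∩ ⋂ T : E ≃ₗᵢ[ℝ] E,
              (act T) ⁻¹' K₁ := by
            ext y; simp
          rw [this]
          exact k2.inter (isClosed_iInter fun T => hc1.preimage (act_cont T))
        · intro y hy z hz a b ha hb hab
          refine ⟨k3 hy.1 hz.1 ha hb hab, fun T => ?_⟩
          exact hc2 (hy.2 T) (hz.2 T) ha hb hab
        · intro S y hy
          refine ⟨k4 S y hy.1, fun T => ?_⟩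
          rw [act_act]
          exact hy.2 _
        · exact (Set.sep_subset _ _).trans k5
      have := kmin hmem (Set.sep_subset _ _) hx₀
      have h2 := this.2 (LinearIsometryEquiv.refl ℝ E)
      rw [act_refl] at h2
      exact hx₁ h2
    -- the contradiction
    have hfinal : ∀ a ∈ K, ∀ b ∈ K, act T ((1 / 2 : ℝ) • (a + b)) ∉ K₁ → act T a ∉ K₁ →
        q e (a - b) ≤ ENNReal.ofReal (64 * κ ^ 2 * η) := by
      intro a ha b hb h1 h2
      have hw' : ((1 / 2 : ℝ) • (a + b)) ∈ K := by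
        have := k3 ha hb (by norm_num : (0 : ℝ) ≤ 1 / 2) (by norm_num : (0 : ℝ) ≤ 1 / 2)
          (by norm_num)
        rwa [← smul_add] at this
      have h3 := hsl _ (k4 T _ hw') h1
      have h4 := hsl _ (k4 T _ ha) h2
      have h5 : q e (act T a - act T ((1 / 2 : ℝ) • (a + b))) ≤ ENNReal.ofReal (16 * η) := by
        have h6 := q_par e (act T a - x₀) (act T ((1 / 2 : ℝ) • (a + b)) - x₀)
        rw [sub_sub_sub_cancel_right] at h6
        calc q e (act T a - act T ((1 / 2 : ℝ) • (a + b)))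
            ≤ 2 * q e (act T a - x₀) + 2 * q e (act T ((1 / 2 : ℝ) • (a + b)) - x₀) := by
              rw [← h6]; exact le_add_self
          _ ≤ 2 * ENNReal.ofReal (4 * η) + 2 * ENNReal.ofReal (4 * η) := by gcongr
          _ = ENNReal.ofReal (16 * η) := by
              have e2 : (2 : ℝ≥0∞) = ENNReal.ofReal 2 := by simp
              rw [e2, ← ENNReal.ofReal_mul (by norm_num), ← ENNReal.ofReal_add (by positivity)
                (by positivity)]
              congr 1
              ring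
      have e3 : act T a - act T ((1 / 2 : ℝ) • (a + b)) = (1 / 2 : ℝ) • act T (a - b) := by
        funext x y
        show a (T x) (T y) - (1 / 2 : ℝ) * (a (T x) (T y) + b (T x) (T y))
          = (1 / 2 : ℝ) * (a (T x) (T y) - b (T x) (T y))
        ring
      rw [e3, q_smul] at h5
      have h7 : q e (act T (a - b)) ≤ ENNReal.ofReal (64 * η) := by
        have h8 : ENNReal.ofReal 4 * (ENNReal.ofReal ((1 / 2 : ℝ) ^ 2) * q e (act T (a - b)))
            ≤ ENNReal.ofReal 4 * ENNReal.ofReal (16 * η) := by gcongr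
        rw [← mul_assoc, ← ENNReal.ofReal_mul (by norm_num), ← ENNReal.ofReal_mul (by norm_num)]
          at h8
        have e4 : (4 : ℝ) * (1 / 2) ^ 2 = 1 := by norm_num
        rw [e4, ENNReal.ofReal_one, one_mul] at h8
        refine h8.trans (le_of_eq ?_)
        congr 1
        ring
      have h9 := q_act hg (((hF a (k5 ha)).sub (hF b (k5 hb))).act T) T.symm
      rw [act_symm] at h9
      refine h9.trans ?_
      calc ENNReal.ofReal (κ ^ 2) * q e (act T (a - b))
          ≤ ENNReal.ofReal (κ ^ 2) * ENNReal.ofReal (64 * η) := by gcongr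
        _ = ENNReal.ofReal (64 * κ ^ 2 * η) := by
            rw [← ENNReal.ofReal_mul (by positivity)]
            congr 1
            ring
    have hle2 : q e (u - v) ≤ ENNReal.ofReal (64 * κ ^ 2 * η) := by
      by_cases h1 : act T u ∈ K₁
      · have h2 : act T v ∉ K₁ := by
          intro h2
          refine hT ?_
          have := hc2 h1 h2 (by norm_num : (0 : ℝ) ≤ 1 / 2) (by norm_num : (0 : ℝ) ≤ 1 / 2)
            (by norm_num)
          rw [← smul_add] at this
          exact this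
        have h3 := hfinal v hv u hu (by rw [add_comm v u]; exact hT) h2
        rwa [← q_neg, neg_sub] at h3
      · exact hfinal u hu v hv hT h1
    have h5 : δ ≤ 64 * κ ^ 2 * η := by
      rw [hδ]
      exact ENNReal.toReal_le_of_le_ofReal (by positivity) hle2
    nlinarith
  obtain ⟨B, hB⟩ := k1
  exact ⟨B, k5 hB, fun T => hsub _ (k4 T B hB) _ hB⟩

end Pool.Agent.Q199.RN
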