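import Mathlib

/-!
# Bounded symmetric forms and their Hilbert-Schmidt size
-/

set_option autoImplicit false
set_option linter.unusedSectionVars false

namespace Pool.Agent.Q199.RN

open scoped ENNReal RealInnerProductSpace
open Filter Topology

variable {E : Type} [NormedAddCommGroup E] [NormedSpace ℝ E] {ι : Type}

/-- bounded symmetric bilinear forms, as functions -/
def IsForm (M : ℝ) (B : E → E → ℝ) : Prop :=
  (∀ x x' y, B (x + x') y = B x y + B x' y) ∧ (∀ (c : ℝ) (x y : E), B (c • x) y = c * B x y) ∧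
    (∀ x y, B x y = B y x) ∧ ∀ x y, |B x y| ≤ M * ‖x‖ * ‖y‖

/-- the form read through an isometry -/
def act (T : E ≃ₗᵢ[ℝ] E) (B : E → E → ℝ) : E → E → ℝ := fun x y => B (T x) (T y)

lemma IsForm.act {M : ℝ} {B : E → E → ℝ} (h : IsForm M B) (T : E ≃ₗᵢ[ℝ] E) :
    IsForm M (act T B) := by
  obtain ⟨h1, h2, h3, h4⟩ := h
  refine ⟨fun x x' y => ?_, fun c x y => ?_, fun x y => ?_, fun x y => ?_⟩
  · show B (T (x + x')) (T y) = _
    rw [map_add, h1]; rfl
  · show B (T (c • x)) (T y) = _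
    rw [map_smul, h2]; rfl
  · exact h3 _ _
  · have := h4 (T x) (T y)
    rwa [T.norm_map, T.norm_map] at this

lemma IsForm.sub {M N : ℝ} {B C : E → E → ℝ} (h : IsForm M B) (h' : IsForm N C) :
    IsForm (M + N) (B - C) := by
  obtain ⟨h1, h2, h3, h4⟩ := h
  obtain ⟨k1, k2, k3, k4⟩ := h'
  refine ⟨fun x x' y => ?_, fun c x y => ?_, fun x y => ?_, fun x y => ?_⟩
  · show B (x + x') y - C (x + x') y = (B x y - C x y) + (B x' y - C x' y)
    rw [h1, k1]; ring
  · show B (c • x) y - C (c • x) y = c * (B x y - C x y)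
    rw [h2, k2]; ring
  · show B x y - C x y = B y x - C y x
    rw [h3, k3]
  · show |B x y - C x y| ≤ _
    have := abs_sub (B x y) (C x y)
    have a := h4 x y
    have b := k4 x y
    calc |B x y - C x y| ≤ |B x y| + |C x y| := abs_sub _ _
      _ ≤ M * ‖x‖ * ‖y‖ + N * ‖x‖ * ‖y‖ := add_le_add a b
      _ = (M + N) * ‖x‖ * ‖y‖ := by ring

lemma IsForm.exists_fn {M : ℝ} {B : E → E → ℝ} (h : IsForm M B) (x : E) :
    ∃ f : E →L[ℝ] ℝ, ∀ y, f y = B x y := by
  obtain ⟨h1, h2, h3, h4⟩ := h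
  refine ⟨LinearMap.mkContinuous
    { toFun := fun y => B x y
      map_add' := fun y y' => by rw [h3 x, h1, h3 y, h3 y']
      map_smul' := fun c y => by rw [h3 x, h2, h3 y]; rfl } (M * ‖x‖) fun y => ?_, fun y => rfl⟩
  exact h4 x y

/-- the squared Hilbert-Schmidt size -/
noncomputable def q (e : ι → E) (B : E → E → ℝ) : ℝ≥0∞ :=
  ∑' p : ι × ι, ENNReal.ofReal (B (e p.1) (e p.2) ^ 2)

lemma q_par (e : ι → E) (a b : E → E → ℝ) :
    q e (a + b) + q e (a - b) = 2 * q e a + 2 * q e b := by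
  unfold q
  rw [← ENNReal.tsum_add, ← ENNReal.tsum_mul_left, ← ENNReal.tsum_mul_left, ← ENNReal.tsum_add]
  congr 1
  funext p
  have e2 : (2 : ℝ≥0∞) = ENNReal.ofReal 2 := by simp
  rw [e2, ← ENNReal.ofReal_mul (by norm_num), ← ENNReal.ofReal_mul (by norm_num),
    ← ENNReal.ofReal_add (sq_nonneg _) (sq_nonneg _),
    ← ENNReal.ofReal_add (by positivity) (by positivity)]
  congr 1
  show (a (e p.1) (e p.2) + b (e p.1) (e p.2)) ^ 2 + (a (e p.1) (e p.2) - b (e p.1) (e p.2)) ^ 2 = _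
  ring

lemma q_smul (e : ι → E) (c : ℝ) (a : E → E → ℝ) :
    q e (c • a) = ENNReal.ofReal (c ^ 2) * q e a := by
  unfold q
  rw [← ENNReal.tsum_mul_left]
  congr 1
  funext p
  rw [← ENNReal.ofReal_mul (sq_nonneg _)]
  congr 1
  show (c * a (e p.1) (e p.2)) ^ 2 = _
  ring

lemma q_neg (e : ι → E) (a : E → E → ℝ) : q e (-a) = q e a := by
  have := q_smul e (-1) a
  rw [neg_one_smul] at this
  rw [this]
  norm_num

lemma q_closed (e : ι → E) (c : E → E → ℝ) (s : ℝ≥0∞) :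
    IsClosed {B : E → E → ℝ | q e (B - c) ≤ s} := by
  have : {B : E → E → ℝ | q e (B - c) ≤ s} = ⋂ S : Finset (ι × ι),
      {B : E → E → ℝ | ∑ p ∈ S, ENNReal.ofReal ((B (e p.1) (e p.2) - c (e p.1) (e p.2)) ^ 2)
        ≤ s} := by
    ext B
    simp only [Set.mem_ofPred_eq, Set.mem_iInter]
    constructor
    · intro h S
      exact (ENNReal.sum_le_tsum S).trans h
    · intro h
      unfold q
      rw [ENNReal.tsum_eq_iSup_sum]
      exact iSup_le h
  rw [this]
  refine isClosed_iInter fun S => isClosed_le ?_ continuous_const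
  refine continuous_finsetSum _ fun p _ => ENNReal.continuous_ofReal.comp ?_
  fun_prop

lemma q_convex (e : ι → E) (c : E → E → ℝ) (s : ℝ≥0∞) :
    Convex ℝ {B : E → E → ℝ | q e (B - c) ≤ s} := by
  intro B hB C hC a b ha hb hab
  have h1 : q e ((a • B + b • C) - c) ≤ ENNReal.ofReal a * q e (B - c)
      + ENNReal.ofReal b * q e (C - c) := by
    unfold q
    rw [← ENNReal.tsum_mul_left, ← ENNReal.tsum_mul_left, ← ENNReal.tsum_add]
    refine ENNReal.tsum_le_tsum fun p => ?_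
    rw [← ENNReal.ofReal_mul ha, ← ENNReal.ofReal_mul hb,
      ← ENNReal.ofReal_add (by positivity) (by positivity)]
    refine ENNReal.ofReal_le_ofReal ?_
    show ((a * B (e p.1) (e p.2) + b * C (e p.1) (e p.2)) - c (e p.1) (e p.2)) ^ 2
      ≤ a * (B (e p.1) (e p.2) - c (e p.1) (e p.2)) ^ 2
        + b * (C (e p.1) (e p.2) - c (e p.1) (e p.2)) ^ 2
    have hb' : b = 1 - a := by linarith
    subst hb'
    nlinarith [mul_nonneg (mul_nonneg ha hb) (sq_nonneg (B (e p.1) (e p.2) - C (e p.1) (e p.2)))]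
  refine h1.trans ?_
  calc ENNReal.ofReal a * q e (B - c) + ENNReal.ofReal b * q e (C - c)
      ≤ ENNReal.ofReal a * s + ENNReal.ofReal b * s := by gcongr <;> assumption
    _ = s := by
      rw [← add_mul, ← ENNReal.ofReal_add ha hb, hab, ENNReal.ofReal_one, one_mul]

/-- families of vectors for which the Hilbert-Schmidt size is well behaved -/
structure Good (e : ι → E) (κ : ℝ) : Prop where
  one_le : 1 ≤ κ
  le : ∀ (f : E →L[ℝ] ℝ) (T : E ≃ₗᵢ[ℝ] E), ∑' i, ENNReal.ofReal (f (T (e i)) ^ 2)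
    ≤ ENNReal.ofReal κ * ∑' i, ENNReal.ofReal (f (e i) ^ 2)
  fin : ∀ f : E →L[ℝ] ℝ, ∑' i, ENNReal.ofReal (f (e i) ^ 2) ≠ ∞
  inj : ∀ f : E →L[ℝ] ℝ, (∀ i, f (e i) = 0) → f = 0

lemma q_act {e : ι → E} {κ M : ℝ} (hg : Good e κ) {B : E → E → ℝ} (hB : IsForm M B)
    (T : E ≃ₗᵢ[ℝ] E) : q e (act T B) ≤ ENNReal.ofReal (κ ^ 2) * q e B := by
  have hk : 0 ≤ κ := zero_le_one.trans hg.one_le
  have h1 : q e (act T B) = ∑' i, ∑' j, ENNReal.ofReal (B (T (e i)) (T (e j)) ^ 2) :=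
    ENNReal.tsum_prod (f := fun i j => ENNReal.ofReal (B (T (e i)) (T (e j)) ^ 2))
  have h2 : q e B = ∑' j, ∑' i, ENNReal.ofReal (B (e i) (e j) ^ 2) := by
    have : q e B = ∑' i, ∑' j, ENNReal.ofReal (B (e i) (e j) ^ 2) :=
      ENNReal.tsum_prod (f := fun i j => ENNReal.ofReal (B (e i) (e j) ^ 2))
    rw [this, ENNReal.tsum_comm]
  rw [h1, h2]
  calc ∑' i, ∑' j, ENNReal.ofReal (B (T (e i)) (T (e j)) ^ 2)
      ≤ ∑' i, ENNReal.ofReal κ * ∑' j, ENNReal.ofReal (B (T (e i)) (e j) ^ 2) := by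
        refine ENNReal.tsum_le_tsum fun i => ?_
        obtain ⟨f, hf⟩ := hB.exists_fn (T (e i))
        have := hg.le f T
        simpa only [hf] using this
    _ = ENNReal.ofReal κ * ∑' j, ∑' i, ENNReal.ofReal (B (T (e i)) (e j) ^ 2) := by
        rw [ENNReal.tsum_mul_left, ENNReal.tsum_comm]
    _ ≤ ENNReal.ofReal κ * ∑' j, ENNReal.ofReal κ * ∑' i, ENNReal.ofReal (B (e i) (e j) ^ 2) := by
        refine mul_le_mul_right (ENNReal.tsum_le_tsum fun j => ?_) _
        obtain ⟨f, hf⟩ := hB.exists_fn (e j)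
        have := hg.le f T
        simp only [hf] at this
        simp only [hB.2.2.1 _ (e j)]
        exact this
    _ = ENNReal.ofReal (κ ^ 2) * ∑' j, ∑' i, ENNReal.ofReal (B (e i) (e j) ^ 2) := by
        rw [ENNReal.tsum_mul_left, ← mul_assoc, ← ENNReal.ofReal_mul hk, sq]

lemma eq_of_q {e : ι → E} {κ M : ℝ} (hg : Good e κ) {B : E → E → ℝ} (hB : IsForm M B)
    (h : q e B = 0) : B = 0 := by
  have h1 : ∀ i j, B (e i) (e j) = 0 := by
    intro i j
    have := (ENNReal.tsum_eq_zero.1 h) (i, j)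
    rw [ENNReal.ofReal_eq_zero] at this
    have h2 : B (e i) (e j) ^ 2 = 0 := le_antisymm this (sq_nonneg _)
    exact pow_eq_zero_iff (two_ne_zero) |>.1 h2
  have h2 : ∀ i y, B (e i) y = 0 := by
    intro i y
    obtain ⟨f, hf⟩ := hB.exists_fn (e i)
    have : f = 0 := hg.inj f fun j => by rw [hf, h1]
    rw [← hf, this]; rfl
  funext x y
  obtain ⟨f, hf⟩ := hB.exists_fn x
  have : f = 0 := hg.inj f fun j => by rw [hf, hB.2.2.1, h2]
  rw [← hf, this]; rfl

end Pool.Agent.Q199.RN
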