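import Pool.Agent.Q199.RN.Fix

/-!
# Convex-transitive norms on Hilbertian spaces: null nets of isometries
-/

set_option autoImplicit false
set_option linter.unusedSectionVars false

namespace Pool.Agent.Q199.RN

open scoped ENNReal RealInnerProductSpace
open Filter Topology

variable {E : Type} [NormedAddCommGroup E] [NormedSpace ℝ E]
  {H : Type} [NormedAddCommGroup H] [InnerProductSpace ℝ H] {ι : Type}

/-- Parseval for functionals -/
lemma pars [CompleteSpace H] (b : HilbertBasis ι ℝ H) (F : H →L[ℝ] ℝ) :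
    ∑' i, ENNReal.ofReal (F (b i) ^ 2) = ENNReal.ofReal (‖F‖ ^ 2) := by
  set v := (InnerProductSpace.toDual ℝ H).symm F with hv
  have hF : ∀ h, ⟪v, h⟫ = F h := fun h => InnerProductSpace.toDual_symm_apply
  have hn : ‖v‖ = ‖F‖ := (InnerProductSpace.toDual ℝ H).symm.norm_map F
  have h1 := b.hasSum_inner_mul_inner v v
  have h2 : HasSum (fun i => F (b i) ^ 2) (‖F‖ ^ 2) := by
    rw [real_inner_self_eq_norm_sq, hn] at h1
    have e : (fun i => F (b i) ^ 2) = fun i => ⟪v, b i⟫ * ⟪b i, v⟫ := by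
      funext i
      rw [real_inner_comm v (b i), hF, sq]
    rw [e]
    exact h1
  rw [← h2.tsum_eq, ENNReal.ofReal_tsum_of_nonneg (fun i => sq_nonneg _) h2.summable]

lemma good_of_basis [CompleteSpace H] (Φ : E ≃L[ℝ] H) (b : HilbertBasis ι ℝ H) :
    Good (fun i => Φ.symm (b i))
      ((‖(Φ : E →L[ℝ] H)‖ * ‖(Φ.symm : H →L[ℝ] E)‖) ^ 2 + 1) := by
  set L := ‖(Φ : E →L[ℝ] H)‖ * ‖(Φ.symm : H →L[ℝ] E)‖ with hL
  have hL0 : 0 ≤ L := by positivity
  refine ⟨by nlinarith [sq_nonneg L], fun f T => ?_, fun f => ?_, fun f hf => ?_⟩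
  · have h1 := pars b (f.comp (Φ.symm : H →L[ℝ] E))
    have h2 := pars b ((f.comp ((T : E →L[ℝ] E))).comp (Φ.symm : H →L[ℝ] E))
    have h3 : ‖(f.comp ((T : E →L[ℝ] E))).comp (Φ.symm : H →L[ℝ] E)‖
        ≤ L * ‖f.comp (Φ.symm : H →L[ℝ] E)‖ := by
      refine ContinuousLinearMap.opNorm_le_bound _ (by positivity) fun h => ?_
      have e1 : ((f.comp ((T : E →L[ℝ] E))).comp (Φ.symm : H →L[ℝ] E)) h
          = (f.comp (Φ.symm : H →L[ℝ] E)) (Φ (T (Φ.symm h))) := by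
        show f (T (Φ.symm h)) = f (Φ.symm (Φ (T (Φ.symm h))))
        rw [Φ.symm_apply_apply]
      rw [e1]
      have h4 := (f.comp (Φ.symm : H →L[ℝ] E)).le_opNorm (Φ (T (Φ.symm h)))
      have h5 := (Φ : E →L[ℝ] H).le_opNorm (T (Φ.symm h))
      have h6 := (Φ.symm : H →L[ℝ] E).le_opNorm h
      have h7 : ‖T (Φ.symm h)‖ = ‖Φ.symm h‖ := T.norm_map _
      rw [h7] at h5
      have h8 : ‖Φ (T (Φ.symm h))‖ ≤ L * ‖h‖ := by
        refine h5.trans ?_
        rw [hL, mul_assoc]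
        exact mul_le_mul_of_nonneg_left h6 (norm_nonneg _)
      refine h4.trans ?_
      calc ‖f.comp (Φ.symm : H →L[ℝ] E)‖ * ‖Φ (T (Φ.symm h))‖
          ≤ ‖f.comp (Φ.symm : H →L[ℝ] E)‖ * (L * ‖h‖) :=
            mul_le_mul_of_nonneg_left h8 (norm_nonneg _)
        _ = L * ‖f.comp (Φ.symm : H →L[ℝ] E)‖ * ‖h‖ := by ring
    have h2' : ∑' i, ENNReal.ofReal (f (T (Φ.symm (b i))) ^ 2)
        = ENNReal.ofReal (‖(f.comp ((T : E →L[ℝ] E))).comp (Φ.symm : H →L[ℝ] E)‖ ^ 2) := h2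
    have h1' : ∑' i, ENNReal.ofReal (f (Φ.symm (b i)) ^ 2)
        = ENNReal.ofReal (‖f.comp (Φ.symm : H →L[ℝ] E)‖ ^ 2) := h1
    rw [h2', h1', ← ENNReal.ofReal_mul (by positivity)]
    refine ENNReal.ofReal_le_ofReal ?_
    have h9 : ‖(f.comp ((T : E →L[ℝ] E))).comp (Φ.symm : H →L[ℝ] E)‖ ^ 2
        ≤ (L * ‖f.comp (Φ.symm : H →L[ℝ] E)‖) ^ 2 := by gcongr
    nlinarith [sq_nonneg ‖f.comp (Φ.symm : H →L[ℝ] E)‖]
  · have h1 : ∑' i, ENNReal.ofReal (f (Φ.symm (b i)) ^ 2)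
        = ENNReal.ofReal (‖f.comp (Φ.symm : H →L[ℝ] E)‖ ^ 2) :=
      pars b (f.comp (Φ.symm : H →L[ℝ] E))
    show ∑' i, ENNReal.ofReal (f (Φ.symm (b i)) ^ 2) ≠ ∞
    rw [h1]
    exact ENNReal.ofReal_ne_top
  · have h1 : ∑' i, ENNReal.ofReal (f (Φ.symm (b i)) ^ 2)
        = ENNReal.ofReal (‖f.comp (Φ.symm : H →L[ℝ] E)‖ ^ 2) :=
      pars b (f.comp (Φ.symm : H →L[ℝ] E))
    have h2 : ∀ i, f (Φ.symm (b i)) = 0 := hf
    simp only [h2] at h1
    have h3 : ENNReal.ofReal (‖f.comp (Φ.symm : H →L[ℝ] E)‖ ^ 2) = 0 := by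
      rw [← h1]; simp
    rw [ENNReal.ofReal_eq_zero] at h3
    have h4 : ‖f.comp (Φ.symm : H →L[ℝ] E)‖ = 0 := by
      have := le_antisymm h3 (sq_nonneg _)
      exact pow_eq_zero_iff (two_ne_zero) |>.1 this
    have h5 := norm_eq_zero.1 h4
    ext x
    have h6 := congrArg (fun g : H →L[ℝ] ℝ => g (Φ x)) h5
    have h7 : f (Φ.symm (Φ x)) = 0 := h6
    rwa [Φ.symm_apply_apply] at h7

/-- convex transitivity -/
def CT (E : Type) [NormedAddCommGroup E] [NormedSpace ℝ E] : Prop :=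
  ∀ x y : E, ‖x‖ = 1 → ‖y‖ = 1 →
    y ∈ closure (convexHull ℝ {z : E | ∃ T : E ≃ₗᵢ[ℝ] E, T x = z})

/-- an invariant positive form is a multiple of the squared norm -/
lemma const_of_inv (hct : CT E) {M : ℝ} {B : E → E → ℝ} (hB : IsForm M B)
    (hpos : ∀ x, 0 ≤ B x x) (hinv : ∀ T : E ≃ₗᵢ[ℝ] E, act T B = B) (u : E) (hu : ‖u‖ = 1) (x : E) :
    B x x = B u u * ‖x‖ ^ 2 := by
  obtain ⟨h1, h2, h3, h4⟩ := hB
  have h1' : ∀ x y y', B x (y + y') = B x y + B x y' := fun x y y' => by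
    rw [h3 x, h1, h3 y, h3 y']
  have h2' : ∀ (c : ℝ) (x y : E), B x (c • y) = c * B x y := fun c x y => by
    rw [h3 x, h2, h3 y]
  have hcont : Continuous fun x : E => B x x := by
    obtain ⟨Bc, hBc⟩ : ∃ Bc : E →L[ℝ] E →L[ℝ] ℝ, ∀ x y, Bc x y = B x y := by
      refine ⟨LinearMap.mkContinuous₂ (LinearMap.mk₂ ℝ B h1 h2 h1' h2') M fun x y => h4 x y,
        fun x y => rfl⟩
    have : (fun x : E => B x x) = fun x => Bc x x := by funext x; rw [hBc]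
    rw [this]
    fun_prop
  have hcv : ∀ s : ℝ, Convex ℝ {z : E | B z z ≤ s} := by
    intro s z hz w hw a b ha hb hab
    have hz' : B z z ≤ s := hz
    have hw' : B w w ≤ s := hw
    show B (a • z + b • w) (a • z + b • w) ≤ s
    have h5 := hpos (z + (-1 : ℝ) • w)
    simp only [h1, h1', h2, h2'] at h5 ⊢
    rw [h3 w z] at h5 ⊢
    have hb' : b = 1 - a := by linarith
    subst hb'
    nlinarith [mul_nonneg ha hb]
  have hle : ∀ x y : E, ‖x‖ = 1 → ‖y‖ = 1 → B y y ≤ B x x := by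
    intro x y hx hy
    have h5 := hct x y hx hy
    have h6 : closure (convexHull ℝ {z : E | ∃ T : E ≃ₗᵢ[ℝ] E, T x = z})
        ⊆ {z : E | B z z ≤ B x x} := by
      refine closure_minimal (convexHull_min ?_ (hcv _)) (isClosed_le hcont continuous_const)
      rintro z ⟨T, rfl⟩
      have := congrFun (congrFun (hinv T) x) x
      exact le_of_eq this
    exact h6 h5
  by_cases hx : x = 0
  · subst hx
    have : B (0 : E) 0 = 0 := by
      have := h2 0 0 0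
      rwa [zero_smul, zero_mul] at this
    rw [this, norm_zero]; ring
  · have hx' : ‖x‖ ≠ 0 := norm_ne_zero_iff.2 hx
    have h5 : ‖(‖x‖⁻¹ : ℝ) • x‖ = 1 := by
      rw [norm_smul, norm_inv, norm_norm, inv_mul_cancel₀ hx']
    have h6 : B ((‖x‖⁻¹ : ℝ) • x) ((‖x‖⁻¹ : ℝ) • x) = B u u :=
      le_antisymm (hle _ _ hu h5) (hle _ _ h5 hu)
    rw [h2, h2'] at h6
    field_simp at h6
    linarith

/-- a Hilbert space from an invariant form -/
lemma paral_of_inv {M c : ℝ} (hc : 0 < c) {B : E → E → ℝ} (hB : IsForm M B)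
    (h : ∀ x, B x x = c * ‖x‖ ^ 2) (x y : E) :
    ‖x + y‖ * ‖x + y‖ + ‖x - y‖ * ‖x - y‖ = 2 * (‖x‖ * ‖x‖ + ‖y‖ * ‖y‖) := by
  obtain ⟨h1, h2, h3, h4⟩ := hB
  have h1' : ∀ x y y', B x (y + y') = B x y + B x y' := fun x y y' => by
    rw [h3 x, h1, h3 y, h3 y']
  have h2' : ∀ (c : ℝ) (x y : E), B x (c • y) = c * B x y := fun c x y => by
    rw [h3 x, h2, h3 y]
  have e1 := h (x + y)
  have e2 := h (x - y)
  have e3 := h x
  have e4 := h y
  have e5 : x - y = x + (-1 : ℝ) • y := by module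
  rw [h1, h1', h1'] at e1
  rw [e5] at e2
  simp only [h1, h1', h2, h2'] at e2
  rw [← e5] at e2
  have : c * (‖x + y‖ * ‖x + y‖ + ‖x - y‖ * ‖x - y‖) = c * (2 * (‖x‖ * ‖x‖ + ‖y‖ * ‖y‖)) := by
    nlinarith
  exact mul_left_cancel₀ hc.ne' this

end Pool.Agent.Q199.RN
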