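import Pool.Agent.Q199.RN.Main

/-!
# Null nets of isometries and the asymptotic parallelogram law
-/

set_option autoImplicit false
set_option linter.unusedSectionVars false

namespace Pool.Agent.Q199.RN

open scoped ENNReal RealInnerProductSpace
open Filter Topology

variable {E : Type} [NormedAddCommGroup E] [NormedSpace ℝ E]
  {H : Type} [NormedAddCommGroup H] [InnerProductSpace ℝ H] {ι : Type}

lemma closed_form (M : ℝ) : IsClosed {B : E → E → ℝ | IsForm M B} := by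
  have h : {B : E → E → ℝ | IsForm M B} =
      ((⋂ (x : E) (x' : E) (y : E), {B : E → E → ℝ | B (x + x') y = B x y + B x' y}) ∩
      (⋂ (c : ℝ) (x : E) (y : E), {B : E → E → ℝ | B (c • x) y = c * B x y})) ∩
      ((⋂ (x : E) (y : E), {B : E → E → ℝ | B x y = B y x}) ∩
      (⋂ (x : E) (y : E), {B : E → E → ℝ | |B x y| ≤ M * ‖x‖ * ‖y‖})) := by
    ext B
    simp only [IsForm, Set.mem_ofPred_eq, Set.mem_inter_iff, Set.mem_iInter]
    tauto
  rw [h]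
  refine ((isClosed_iInter fun x => isClosed_iInter fun x' => isClosed_iInter fun y => ?_).inter
    (isClosed_iInter fun c => isClosed_iInter fun x => isClosed_iInter fun y => ?_)).inter
    ((isClosed_iInter fun x => isClosed_iInter fun y => ?_).inter
    (isClosed_iInter fun x => isClosed_iInter fun y => ?_))
  · exact isClosed_eq (by fun_prop) (by fun_prop)
  · exact isClosed_eq (by fun_prop) (by fun_prop)
  · exact isClosed_eq (by fun_prop) (by fun_prop)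
  · exact isClosed_le (by fun_prop) (by fun_prop)

lemma convex_form (M : ℝ) : Convex ℝ {B : E → E → ℝ | IsForm M B} := by
  intro B hB C hC a b ha hb hab
  obtain ⟨h1, h2, h3, h4⟩ := hB
  obtain ⟨k1, k2, k3, k4⟩ := hC
  refine ⟨fun x x' y => ?_, fun c x y => ?_, fun x y => ?_, fun x y => ?_⟩
  · show a * B (x + x') y + b * C (x + x') y = (a * B x y + b * C x y) + (a * B x' y + b * C x' y)
    rw [h1, k1]; ring
  · show a * B (c • x) y + b * C (c • x) y = c * (a * B x y + b * C x y)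
    rw [h2, k2]; ring
  · show a * B x y + b * C x y = a * B y x + b * C y x
    rw [h3, k3]
  · show |a * B x y + b * C x y| ≤ M * ‖x‖ * ‖y‖
    have e1 : |a * B x y| = a * |B x y| := by rw [abs_mul, abs_of_nonneg ha]
    have e2 : |b * C x y| = b * |C x y| := by rw [abs_mul, abs_of_nonneg hb]
    calc |a * B x y + b * C x y| ≤ |a * B x y| + |b * C x y| := abs_add_le _ _
      _ ≤ a * (M * ‖x‖ * ‖y‖) + b * (M * ‖x‖ * ‖y‖) := by
          rw [e1, e2]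
          exact add_le_add (mul_le_mul_of_nonneg_left (h4 x y) ha)
            (mul_le_mul_of_nonneg_left (k4 x y) hb)
      _ = M * ‖x‖ * ‖y‖ := by rw [← add_mul, hab, one_mul]

lemma sumform (Fs : Finset (E →L[ℝ] ℝ)) :
    IsForm (∑ f ∈ Fs, ‖f‖ ^ 2) fun x y => ∑ f ∈ Fs, f x * f y := by
  refine ⟨fun x x' y => ?_, fun c x y => ?_, fun x y => ?_, fun x y => ?_⟩
  · rw [← Finset.sum_add_distrib]
    exact Finset.sum_congr rfl fun f _ => by rw [map_add]; ring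
  · rw [Finset.mul_sum]
    exact Finset.sum_congr rfl fun f _ => by rw [map_smul, smul_eq_mul]; ring
  · exact Finset.sum_congr rfl fun f _ => mul_comm _ _
  · refine (Finset.abs_sum_le_sum_abs _ _).trans ?_
    rw [Finset.sum_mul, Finset.sum_mul]
    refine Finset.sum_le_sum fun f _ => ?_
    rw [abs_mul]
    have h1 := f.le_opNorm x
    have h2 := f.le_opNorm y
    rw [Real.norm_eq_abs] at h1 h2
    calc |f x| * |f y| ≤ (‖f‖ * ‖x‖) * (‖f‖ * ‖y‖) := by gcongr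
      _ = ‖f‖ ^ 2 * ‖x‖ * ‖y‖ := by ring

lemma q_sumform {e : ι → E} {κ : ℝ} (hg : Good e κ) (Fs : Finset (E →L[ℝ] ℝ)) :
    q e (fun x y => ∑ f ∈ Fs, f x * f y) ≠ ∞ := by
  classical
  induction Fs using Finset.induction_on with
  | empty =>
    have : q e (fun x y : E => ∑ f ∈ (∅ : Finset (E →L[ℝ] ℝ)), f x * f y) = 0 := by
      simp [q]
    rw [this]
    exact ENNReal.zero_ne_top
  | insert f s hf ih =>
    have e1 : (fun x y : E => ∑ g ∈ insert f s, g x * g y)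
        = (fun x y => f x * f y) + fun x y => ∑ g ∈ s, g x * g y := by
      funext x y
      show ∑ g ∈ insert f s, g x * g y = f x * f y + ∑ g ∈ s, g x * g y
      rw [Finset.sum_insert hf]
    have e2 : q e (fun x y => f x * f y) = (∑' i, ENNReal.ofReal (f (e i) ^ 2))
        * ∑' i, ENNReal.ofReal (f (e i) ^ 2) := by
      have : q e (fun x y => f x * f y)
          = ∑' i, ∑' j, ENNReal.ofReal ((f (e i) * f (e j)) ^ 2) :=
        ENNReal.tsum_prod (f := fun i j => ENNReal.ofReal ((f (e i) * f (e j)) ^ 2))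
      rw [this, ← ENNReal.tsum_mul_right]
      congr 1
      funext i
      rw [← ENNReal.tsum_mul_left]
      congr 1
      funext j
      rw [← ENNReal.ofReal_mul (sq_nonneg _), mul_pow]
    have h1 := q_par e (fun x y => f x * f y) (fun x y => ∑ g ∈ s, g x * g y)
    rw [e1]
    have h2 : q e ((fun x y => f x * f y) + fun x y => ∑ g ∈ s, g x * g y)
        ≤ 2 * q e (fun x y => f x * f y) + 2 * q e (fun x y => ∑ g ∈ s, g x * g y) := by
      rw [← h1]; exact le_self_add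
    refine ne_top_of_le_ne_top ?_ h2
    rw [e2]
    have := hg.fin f
    finiteness

/-- **null nets of isometries** -/
theorem null [CompleteSpace H] (hinf : ¬ FiniteDimensional ℝ E) (Φ : E ≃L[ℝ] H) (hct : CT E)
    (X : Finset E) (Fs : Finset (E →L[ℝ] ℝ)) {ε : ℝ} (hε : 0 < ε) :
    ∃ T : E ≃ₗᵢ[ℝ] E, ∀ x ∈ X, ∀ f ∈ Fs, |f (T x)| < ε := by
  by_contra hcon
  push Not at hcon
  obtain ⟨w, b, -⟩ := exists_hilbertBasis ℝ H
  have hinfw : Infinite w := by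
    by_contra hfin
    rw [not_infinite_iff_finite] at hfin
    have := Fintype.ofFinite w
    have h1 : FiniteDimensional ℝ H := Module.Finite.of_basis b.toOrthonormalBasis.toBasis
    exact hinf Φ.symm.toLinearEquiv.finiteDimensional
  have hnt : Nontrivial E := by
    by_contra hn
    rw [not_nontrivial_iff_subsingleton] at hn
    exact hinf inferInstance
  obtain ⟨u, hu⟩ := exists_norm_eq E (zero_le_one (α := ℝ))
  have hg := good_of_basis Φ b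
  set e : w → E := fun i => Φ.symm (b i) with he
  obtain ⟨κ, hκ⟩ : ∃ κ, κ = (‖(Φ : E →L[ℝ] H)‖ * ‖(Φ.symm : H →L[ℝ] E)‖) ^ 2 + 1 := ⟨_, rfl⟩
  rw [← hκ] at hg
  obtain ⟨C, hC⟩ : ∃ C : E → E → ℝ, C = fun x y => ∑ f ∈ Fs, f x * f y := ⟨_, rfl⟩
  obtain ⟨M, hM⟩ : ∃ M, M = ∑ f ∈ Fs, ‖f‖ ^ 2 := ⟨_, rfl⟩
  have hCf : IsForm M C := by rw [hC, hM]; exact sumform Fs
  have hCq : q e C ≠ ∞ := by rw [hC]; exact q_sumform hg Fs
  obtain ⟨R, hR⟩ : ∃ R, R = (ENNReal.ofReal (κ ^ 2) * q e C).toReal := ⟨_, rfl⟩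
  have hR' : ENNReal.ofReal (κ ^ 2) * q e C = ENNReal.ofReal R := by
    rw [hR, ENNReal.ofReal_toReal]
    finiteness
  obtain ⟨K₀, hK₀⟩ : ∃ K₀ : Set (E → E → ℝ), K₀ = ({B | IsForm M B} ∩ ⋂ x : E, {B | 0 ≤ B x x}) ∩
    ((⋂ T : E ≃ₗᵢ[ℝ] E, act T ⁻¹' {B | q e (B - 0) ≤ ENNReal.ofReal R}) ∩
    ⋂ T : E ≃ₗᵢ[ℝ] E, {B | ε ^ 2 ≤ ∑ x ∈ X, B (T x) (T x)}) := ⟨_, rfl⟩
  have hmem : ∀ B, B ∈ K₀ ↔ (IsForm M B ∧ ∀ x, 0 ≤ B x x) ∧
      ((∀ T : E ≃ₗᵢ[ℝ] E, q e (act T B - 0) ≤ ENNReal.ofReal R) ∧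
      ∀ T : E ≃ₗᵢ[ℝ] E, ε ^ 2 ≤ ∑ x ∈ X, B (T x) (T x)) := by
    intro B
    rw [hK₀]
    simp only [Set.mem_inter_iff, Set.mem_ofPred_eq, Set.mem_iInter, Set.mem_preimage]
  have hcl : IsClosed K₀ := by
    rw [hK₀]
    refine ((closed_form M).inter (isClosed_iInter fun x => isClosed_le (by fun_prop)
      (by fun_prop))).inter ((isClosed_iInter fun T => (q_closed e 0 _).preimage (act_cont T)).inter
      (isClosed_iInter fun T => isClosed_le (by fun_prop) (by fun_prop)))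
  have hcv : Convex ℝ K₀ := by
    intro B hB D hD s t hs ht hst
    rw [hmem] at hB hD ⊢
    refine ⟨⟨convex_form M hB.1.1 hD.1.1 hs ht hst, fun x => ?_⟩, fun T => ?_, fun T => ?_⟩
    · exact add_nonneg (mul_nonneg hs (hB.1.2 x)) (mul_nonneg ht (hD.1.2 x))
    · exact q_convex e 0 _ (hB.2.1 T) (hD.2.1 T) hs ht hst
    · have h1 := hB.2.2 T
      have h2 := hD.2.2 T
      show ε ^ 2 ≤ ∑ x ∈ X, (s * B (T x) (T x) + t * D (T x) (T x))
      rw [Finset.sum_add_distrib, ← Finset.mul_sum, ← Finset.mul_sum]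
      have ht' : t = 1 - s := by linarith
      subst ht'
      nlinarith [mul_le_mul_of_nonneg_left h1 hs, mul_le_mul_of_nonneg_left h2 ht]
  have hne : K₀.Nonempty := by
    refine ⟨C, (hmem C).2 ⟨⟨hCf, fun x => ?_⟩, fun T => ?_, fun T => ?_⟩⟩
    · rw [hC]
      exact Finset.sum_nonneg fun f _ => mul_self_nonneg _
    · rw [sub_zero, ← hR']
      exact q_act hg hCf T
    · obtain ⟨x, hx, f, hf, hfx⟩ := hcon T
      rw [hC]
      have h1 : f (T x) * f (T x) ≤ ∑ g ∈ Fs, g (T x) * g (T x) :=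
        Finset.single_le_sum (f := fun g : E →L[ℝ] ℝ => g (T x) * g (T x))
          (fun g _ => mul_self_nonneg _) hf
      have h2 : ∑ g ∈ Fs, g (T x) * g (T x) ≤ ∑ y ∈ X, ∑ g ∈ Fs, g (T y) * g (T y) :=
        Finset.single_le_sum (f := fun y : E => ∑ g ∈ Fs, g (T y) * g (T y))
          (fun y _ => Finset.sum_nonneg fun g _ => mul_self_nonneg _) hx
      have h3 : ε ^ 2 ≤ f (T x) * f (T x) := by
        rw [← abs_mul_abs_self, sq]
        exact mul_self_le_mul_self hε.le hfx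
      exact h3.trans (h1.trans h2)
  have hinv : ∀ T : E ≃ₗᵢ[ℝ] E, ∀ B ∈ K₀, act T B ∈ K₀ := by
    intro S B hB
    rw [hmem] at hB ⊢
    refine ⟨⟨hB.1.1.act S, fun x => hB.1.2 (S x)⟩, fun T => ?_, fun T => ?_⟩
    · rw [act_act]; exact hB.2.1 _
    · exact hB.2.2 (T.trans S)
  obtain ⟨B, hBK, hBi⟩ := fixed hg hne hcl hcv hinv (fun B hB => ((hmem B).1 hB).1.1)
    (B₀ := 0) (R := R) (fun B hB => ((hmem B).1 hB).2.1 (LinearIsometryEquiv.refl ℝ E))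
  rw [hmem] at hBK
  have hconst := const_of_inv hct hBK.1.1 hBK.1.2 hBi u hu
  have hcpos : 0 < B u u := by
    rcases (hBK.1.2 u).lt_or_eq with h | h
    · exact h
    · exfalso
      have h1 := hBK.2.2 (LinearIsometryEquiv.refl ℝ E)
      have h2 : ∑ x ∈ X, B ((LinearIsometryEquiv.refl ℝ E) x) ((LinearIsometryEquiv.refl ℝ E) x)
          = 0 := by
        refine Finset.sum_eq_zero fun x _ => ?_
        show B x x = 0
        rw [hconst, ← h, zero_mul]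
      rw [h2] at h1
      have : 0 < ε ^ 2 := by positivity
      linarith
  -- the Hilbert-Schmidt size is infinite
  have hqB : q e B ≤ ENNReal.ofReal R := by
    have := hBK.2.1 (LinearIsometryEquiv.refl ℝ E)
    rwa [act_refl, sub_zero] at this
  obtain ⟨A, hA⟩ : ∃ A, A = ‖(Φ : E →L[ℝ] H)‖ + 1 := ⟨_, rfl⟩
  have hA0 : 0 < A := by rw [hA]; positivity
  have hei : ∀ i, A⁻¹ ≤ ‖e i‖ := by
    intro i
    have h1 := (Φ : E →L[ℝ] H).le_opNorm (e i)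
    have h2 : (Φ : E →L[ℝ] H) (e i) = b i := Φ.apply_symm_apply (b i)
    rw [h2, b.orthonormal.1 i] at h1
    rw [inv_le_iff_one_le_mul₀ hA0]
    refine h1.trans ?_
    rw [mul_comm, hA]
    exact mul_le_mul_of_nonneg_left (by linarith) (norm_nonneg _)
  have h1 : ∑' i : w, ENNReal.ofReal ((B u u * (A⁻¹) ^ 2) ^ 2) ≤ q e B := by
    calc ∑' i : w, ENNReal.ofReal ((B u u * (A⁻¹) ^ 2) ^ 2)
        ≤ ∑' i : w, ENNReal.ofReal (B (e i) (e i) ^ 2) := by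
          refine ENNReal.tsum_le_tsum fun i => ENNReal.ofReal_le_ofReal ?_
          rw [hconst (e i)]
          have := hei i
          gcongr
      _ ≤ q e B := by
          exact ENNReal.tsum_comp_le_tsum_of_injective (f := fun i : w => (i, i))
            (fun i j h => (Prod.mk.inj h).1)
            (fun p : w × w => ENNReal.ofReal (B (e p.1) (e p.2) ^ 2))
  have h2 : ∑' i : w, ENNReal.ofReal ((B u u * (A⁻¹) ^ 2) ^ 2) = ∞ := by
    refine ENNReal.tsum_const_eq_top_of_ne_zero ?_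
    rw [Ne, ENNReal.ofReal_eq_zero, not_le]
    positivity
  rw [h2] at h1
  exact absurd (h1.trans hqB) (not_le.2 ENNReal.ofReal_lt_top)

/-- the asymptotic parallelogram law -/
theorem asym [CompleteSpace H] (hinf : ¬ FiniteDimensional ℝ E) (Φ : E ≃L[ℝ] H) (hct : CT E)
    (h : ∀ ε : ℝ, 0 < ε → ∃ (s : Finset (E →L[ℝ] ℝ)) (δ : ℝ), 0 < δ ∧ ∀ x y : E, ‖x‖ ≤ 1 →
      ‖y‖ ≤ 1 → (∀ f ∈ s, |f x| < δ ∧ |f y| < δ) →
      |‖x + y‖ ^ 2 + ‖x - y‖ ^ 2 - 2 * ‖x‖ ^ 2 - 2 * ‖y‖ ^ 2| ≤ ε) (x y : E) :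
    ‖x + y‖ * ‖x + y‖ + ‖x - y‖ * ‖x - y‖ = 2 * (‖x‖ * ‖x‖ + ‖y‖ * ‖y‖) := by
  classical
  have key : ∀ x y : E, ‖x‖ ≤ 1 → ‖y‖ ≤ 1 →
      ‖x + y‖ ^ 2 + ‖x - y‖ ^ 2 - 2 * ‖x‖ ^ 2 - 2 * ‖y‖ ^ 2 = 0 := by
    intro x y hx hy
    rw [← abs_eq_zero]
    refine le_antisymm (le_of_forall_pos_le_add fun ε hε => ?_) (abs_nonneg _)
    obtain ⟨s, δ, hδ, hs⟩ := h ε hε
    obtain ⟨T, hT⟩ := null hinf Φ hct {x, y} s hδ
    have h1 := hs (T x) (T y) (by rw [T.norm_map]; exact hx) (by rw [T.norm_map]; exact hy)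
      (fun f hf => ⟨hT x (by simp) f hf, hT y (by simp) f hf⟩)
    rw [← map_add, ← map_sub, T.norm_map, T.norm_map, T.norm_map, T.norm_map] at h1
    rw [zero_add]
    exact h1
  obtain ⟨t, ht⟩ : ∃ t, t = (1 + ‖x‖ + ‖y‖)⁻¹ := ⟨_, rfl⟩
  have ht1 : 0 < 1 + ‖x‖ + ‖y‖ := by positivity
  have ht0 : 0 < t := by rw [ht]; positivity
  have hx : ‖t • x‖ ≤ 1 := by
    rw [norm_smul, Real.norm_of_nonneg ht0.le, ht, inv_mul_le_iff₀ ht1]
    linarith [norm_nonneg y]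
  have hy : ‖t • y‖ ≤ 1 := by
    rw [norm_smul, Real.norm_of_nonneg ht0.le, ht, inv_mul_le_iff₀ ht1]
    linarith [norm_nonneg x]
  have h1 := key (t • x) (t • y) hx hy
  rw [← smul_add, ← smul_sub, norm_smul, norm_smul, norm_smul, norm_smul,
    Real.norm_of_nonneg ht0.le] at h1
  have h2 : t ^ 2 * (‖x + y‖ * ‖x + y‖ + ‖x - y‖ * ‖x - y‖)
      = t ^ 2 * (2 * (‖x‖ * ‖x‖ + ‖y‖ * ‖y‖)) := by nlinarith
  exact mul_left_cancel₀ (by positivity) h2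

/-- Hilbert-Schmidt bounded orbits -/
theorem hs [CompleteSpace H] [Nontrivial E] (Φ : E ≃L[ℝ] H) (b : HilbertBasis ι ℝ H) (hct : CT E)
    {C : ℝ} (h : ∀ (T : E ≃ₗᵢ[ℝ] E) (S : Finset ι), ∑ i ∈ S, ∑ j ∈ S,
      (⟪Φ (T (Φ.symm (b i))), Φ (T (Φ.symm (b j)))⟫ - ⟪b i, b j⟫) ^ 2 ≤ C) (x y : E) :
    ‖x + y‖ * ‖x + y‖ + ‖x - y‖ * ‖x - y‖ = 2 * (‖x‖ * ‖x‖ + ‖y‖ * ‖y‖) := by
  classical
  obtain ⟨u, hu⟩ := exists_norm_eq E (zero_le_one (α := ℝ))
  have hg := good_of_basis Φ b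
  set e : ι → E := fun i => Φ.symm (b i) with he
  obtain ⟨κ, hκ⟩ : ∃ κ, κ = (‖(Φ : E →L[ℝ] H)‖ * ‖(Φ.symm : H →L[ℝ] E)‖) ^ 2 + 1 := ⟨_, rfl⟩
  rw [← hκ] at hg
  obtain ⟨B₀, hB₀⟩ : ∃ B₀ : E → E → ℝ, B₀ = fun x y => ⟪Φ x, Φ y⟫ := ⟨_, rfl⟩
  obtain ⟨M, hM⟩ : ∃ M, M = ‖(Φ : E →L[ℝ] H)‖ * ‖(Φ : E →L[ℝ] H)‖ := ⟨_, rfl⟩
  obtain ⟨c, hc⟩ : ∃ c, c = (‖(Φ.symm : H →L[ℝ] E)‖ ^ 2 + 1)⁻¹ := ⟨_, rfl⟩
  have hc0 : 0 < c := by rw [hc]; positivity
  have hBf : IsForm M B₀ := by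
    rw [hB₀, hM]
    refine ⟨fun x x' y => ?_, fun c x y => ?_, fun x y => ?_, fun x y => ?_⟩
    · show ⟪Φ (x + x'), Φ y⟫ = ⟪Φ x, Φ y⟫ + ⟪Φ x', Φ y⟫
      rw [map_add, inner_add_left]
    · show ⟪Φ (c • x), Φ y⟫ = c * ⟪Φ x, Φ y⟫
      rw [map_smul, real_inner_smul_left]
    · exact real_inner_comm _ _
    · have h1 := (Φ : E →L[ℝ] H).le_opNorm x
      have h2 := (Φ : E →L[ℝ] H).le_opNorm y
      have h3 : |⟪Φ x, Φ y⟫| ≤ ‖Φ x‖ * ‖Φ y‖ := abs_real_inner_le_norm _ _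
      refine h3.trans ?_
      calc ‖Φ x‖ * ‖Φ y‖ ≤ (‖(Φ : E →L[ℝ] H)‖ * ‖x‖) * (‖(Φ : E →L[ℝ] H)‖ * ‖y‖) :=
            mul_le_mul h1 h2 (norm_nonneg _) (by positivity)
        _ = _ := by ring
  have hlow : ∀ x, c * ‖x‖ ^ 2 ≤ B₀ x x := by
    intro x
    rw [hB₀]
    show c * ‖x‖ ^ 2 ≤ ⟪Φ x, Φ x⟫
    rw [real_inner_self_eq_norm_sq, hc, inv_mul_le_iff₀ (by positivity)]
    have h1 := (Φ.symm : H →L[ℝ] E).le_opNorm (Φ x)
    have h2 : (Φ.symm : H →L[ℝ] E) (Φ x) = x := Φ.symm_apply_apply x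
    rw [h2] at h1
    have h3 : ‖x‖ ^ 2 ≤ (‖(Φ.symm : H →L[ℝ] E)‖ * ‖Φ x‖) ^ 2 := by gcongr
    nlinarith [sq_nonneg ‖Φ x‖]
  obtain ⟨K₀, hK₀⟩ : ∃ K₀ : Set (E → E → ℝ), K₀ = ({B | IsForm M B} ∩
    ⋂ x : E, {B | c * ‖x‖ ^ 2 ≤ B x x}) ∩
    (⋂ T : E ≃ₗᵢ[ℝ] E, act T ⁻¹' {B | q e (B - B₀) ≤ ENNReal.ofReal C}) := ⟨_, rfl⟩
  have hmem : ∀ B, B ∈ K₀ ↔ (IsForm M B ∧ ∀ x, c * ‖x‖ ^ 2 ≤ B x x) ∧
      (∀ T : E ≃ₗᵢ[ℝ] E, q e (act T B - B₀) ≤ ENNReal.ofReal C) := by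
    intro B
    rw [hK₀]
    simp only [Set.mem_inter_iff, Set.mem_ofPred_eq, Set.mem_iInter, Set.mem_preimage]
  have hcl : IsClosed K₀ := by
    rw [hK₀]
    refine ((closed_form M).inter (isClosed_iInter fun x => isClosed_le (by fun_prop)
      (by fun_prop))).inter (isClosed_iInter fun T => (q_closed e B₀ _).preimage (act_cont T))
  have hcv : Convex ℝ K₀ := by
    intro B hB D hD s t hs ht hst
    rw [hmem] at hB hD ⊢
    refine ⟨⟨convex_form M hB.1.1 hD.1.1 hs ht hst, fun x => ?_⟩, fun T => ?_⟩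
    · show c * ‖x‖ ^ 2 ≤ s * B x x + t * D x x
      have h1 := hB.1.2 x
      have h2 := hD.1.2 x
      have ht' : t = 1 - s := by linarith
      subst ht'
      nlinarith [mul_le_mul_of_nonneg_left h1 hs, mul_le_mul_of_nonneg_left h2 ht]
    · exact q_convex e B₀ _ (hB.2 T) (hD.2 T) hs ht hst
  have hne : K₀.Nonempty := by
    refine ⟨B₀, (hmem B₀).2 ⟨⟨hBf, hlow⟩, fun T => ?_⟩⟩
    unfold q
    rw [ENNReal.tsum_eq_iSup_sum]
    refine iSup_le fun S => ?_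
    have h1 := h T (S.image Prod.fst ∪ S.image Prod.snd)
    rw [← Finset.sum_product'] at h1
    rw [← ENNReal.ofReal_sum_of_nonneg (fun p _ => sq_nonneg _)]
    refine ENNReal.ofReal_le_ofReal (le_trans ?_ h1)
    have h2 : S ⊆ (S.image Prod.fst ∪ S.image Prod.snd) ×ˢ (S.image Prod.fst ∪ S.image Prod.snd) := by
      intro p hp
      rw [Finset.mem_product]
      exact ⟨Finset.mem_union_left _ (Finset.mem_image_of_mem _ hp),
        Finset.mem_union_right _ (Finset.mem_image_of_mem _ hp)⟩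
    refine le_trans (le_of_eq ?_) (Finset.sum_le_sum_of_subset_of_nonneg h2
      fun p _ _ => sq_nonneg _)
    refine Finset.sum_congr rfl fun p _ => ?_
    rw [hB₀]
    show (⟪Φ (T (Φ.symm (b p.1))), Φ (T (Φ.symm (b p.2)))⟫
      - ⟪Φ (Φ.symm (b p.1)), Φ (Φ.symm (b p.2))⟫) ^ 2 = _
    rw [Φ.apply_symm_apply, Φ.apply_symm_apply]
  have hinv : ∀ T : E ≃ₗᵢ[ℝ] E, ∀ B ∈ K₀, act T B ∈ K₀ := by
    intro S B hB
    rw [hmem] at hB ⊢
    refine ⟨⟨hB.1.1.act S, fun x => ?_⟩, fun T => ?_⟩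
    · have := hB.1.2 (S x)
      rwa [S.norm_map] at this
    · rw [act_act]; exact hB.2 _
  obtain ⟨B, hBK, hBi⟩ := fixed hg hne hcl hcv hinv (fun B hB => ((hmem B).1 hB).1.1)
    (B₀ := B₀) (R := C) (fun B hB => ((hmem B).1 hB).2 (LinearIsometryEquiv.refl ℝ E))
  rw [hmem] at hBK
  have hpos : ∀ x, 0 ≤ B x x := fun x => le_trans (by positivity) (hBK.1.2 x)
  have hconst := const_of_inv hct hBK.1.1 hpos hBi u hu
  have hcpos : 0 < B u u := by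
    have := hBK.1.2 u
    rw [hu] at this
    nlinarith
  exact paral_of_inv hcpos hBK.1.1 hconst x y

end Pool.Agent.Q199.RN
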